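import Mathlib
import Pool.Agent.W66.CK
import Pool.Agent.TH888.R.MeanU
import Pool.Agent.TH888.R.Sh
import Pool.Agent.TH888.R.Asy

set_option autoImplicit false

/-!
# Curve families are systems on windows
-/

namespace Pool.Agent.TH888.C

open Finset Filter Topology MeasureTheory
open Pool.Agent.TH888.R
open Pool.Agent.W66C
open Pool.Agent.W66X (int_bdd)
open Pool.Agent.H447R2.ML (Loc C1)
open Pool.Agent.H305R2 (roughPart bounds gg LL measurable_gg abs_gg_le abs_gg_le_one LL_nonneg LL_cont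
  LL_le_one ff NN measurable_ff ff_nonneg ff_le_one integrableOn_ff integrableOn_gg log_nat_tendsto)

/-- **A curve family is a system on every window.** -/
theorem sys_cur {c0 : ℝ} (hc0 : 0 ≤ c0) {h1 : ℝ → ℝ} {y y' y'' : ℕ → ℝ → ℝ}
    (hym : ∀ p, Measurable (y p))
    (hfam : ∀ a0 a1 : ℝ, c0 < a0 → a0 < a1 → ∃ D : ℝ, 0 ≤ D ∧
      ∀ᶠ p : ℕ in atTop, Cur a0 a1 D h1 p (y p) (y' p) (y'' p)) (b0 b1 : ℝ) (hb0 : c0 < b0)
    (hb01 : b0 < b1) :
    Sys (volume.restrict (Set.Ioc b0 b1)) (fun p t => ff p (y p t)) (fun p t => LL p (y p t))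
      (fun t => Real.exp Real.eulerMascheroniConstant / t) := by
  set a0 := (c0 + b0) / 2 with ha0d
  set a1 := b1 + 1 with ha1d
  have ha0 : 0 < a0 := by rw [ha0d]; linarith
  have h0 : a0 < b0 := by rw [ha0d]; linarith
  have h1' : b1 < a1 := by rw [ha1d]; linarith
  have hb0' : 0 < b0 := by linarith
  obtain ⟨D, hD, hev⟩ := hfam a0 a1 (by rw [ha0d]; linarith) (by linarith)
  obtain ⟨P0, hP0⟩ := eventually_atTop.1 hev
  obtain ⟨κ, K1, hκ, hK1, P1, hfar⟩ := far_loc ha0 hD h0 hb01 h1'
  obtain ⟨K2, hK2, P2, hmid⟩ := mid_loc ha0 hD h0 hb01 h1'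
  obtain ⟨K3, hK3, P3, hnear⟩ := near_c (h1 := h1) (h2 := h1) ha0 hD h0 hb01 h1'
    (by norm_num : (0 : ℝ) < 3 / 4) (by norm_num)
  obtain ⟨K4, hK4, P4, hP43, hcor⟩ := corr_le ha0 hD h0 hb01 h1'
  obtain ⟨K5, hK5, P5, hP53, hone⟩ := one_loc ha0 hD h0 hb01 h1'
  obtain ⟨P7, h7⟩ := eventually_atTop.1 (log_nat_tendsto.eventually_ge_atTop κ)
  obtain ⟨K8, hK8, hev8⟩ := LL_rate_t hb0' D
  obtain ⟨P8, h8⟩ := eventually_atTop.1 hev8
  have hmem : ∀ᵐ t ∂(volume.restrict (Set.Ioc b0 b1)), t ∈ Set.Ioc b0 b1 :=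
    ae_restrict_mem measurableSet_Ioc
  have hG0 : 0 < Real.exp Real.eulerMascheroniConstant := Real.exp_pos _
  refine ⟨fun q => (measurable_ff q).comp (hym q), fun q => (LL_cont q).measurable.comp (hym q),
    fun q t => ff01 q _, fun q t => LL_nonneg q _, fun q t => LL_le_one q _, ?_, ?_, ?_, ?_⟩
  · refine ⟨K8, hK8.le, P0 + P8, ?_⟩
    filter_upwards [hmem] with t ht q hq hqp
    have e1 := (hP0 q (by omega)).loc.near t ⟨by linarith [ht.1], by linarith [ht.2]⟩
    have e3 := h8 q (by omega) t ht.1.le (y q t) e1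
    unfold wt
    rw [mul_one_div]
    exact e3
  · refine ⟨Real.exp Real.eulerMascheroniConstant / b1, Real.exp Real.eulerMascheroniConstant / b0,
      div_pos hG0 (by linarith), ?_⟩
    filter_upwards [hmem] with t ht
    have ht0 : 0 < t := by linarith [ht.1]
    exact ⟨div_le_div_of_nonneg_left hG0.le ht0 ht.2, div_le_div_of_nonneg_left hG0.le hb0' ht.1.le⟩
  · set Q := P0 + P1 + P2 + P3 + P4 + P5 + P7 with hQ
    set J : ℕ → ℕ → ℝ := fun p q => if Q ≤ p then
      ∫ t in Set.Ioc b0 b1, gg p (y p t) * gg q (y q t) else 0 with hJ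
    have hw0 : ∀ m : ℕ, 0 ≤ Real.log m / m := fun m =>
      div_nonneg (Real.log_natCast_nonneg m) (Nat.cast_nonneg m)
    set K := K1 + K2 + (K3 + 2 * K4) with hK
    obtain ⟨C, hC, P', hP', hP3', hrow⟩ := row_set (κ := κ) (K := K) hκ (by positivity)
      (b := 2) le_rfl J Q
      (by
        intro q hq p hp
        have hr : 0 ≤ Real.log q / (q : ℝ) ^ 2 := div_nonneg (Real.log_natCast_nonneg q) (by positivity)
        simp only [hJ]
        split_ifs with hpQ
        · have hlq := h7 q (by omega)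
          have hq0 : (0 : ℝ) < q := by exact_mod_cast (by omega : 0 < q)
          have hpq : p ≤ q := by
            have hl : 0 < Real.log q := lt_of_lt_of_le hκ hlq
            have : (p : ℝ) ≤ q := by
              refine hp.trans ?_
              rw [div_le_iff₀ hl]
              nlinarith
            exact_mod_cast this
          refine (hfar p (by omega) q hpq _ _ _ _ (hP0 p (by omega)).loc (hP0 q (by omega)).loc hp).trans ?_
          exact mul_le_mul_of_nonneg_right (by rw [hK]; linarith) hr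
        · rw [abs_zero]; positivity)
      (by
        intro p hp q hq
        simp only [hJ]
        rw [if_pos hp]
        refine (hmid p (by omega) q hq _ _ _ _ (hP0 p (by omega)).loc (hP0 q (by omega)).loc).trans ?_
        exact mul_le_mul_of_nonneg_right (by rw [hK]; linarith) (mul_nonneg (hw0 p) (hw0 q)))
      (by
        intro p hp q hq hq2
        simp only [hJ]
        rw [if_pos hp]
        have e1 := hcor p (by omega) q (by omega) _ _ _ _ (hP0 p (by omega)).loc (hP0 q (by omega)).loc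
        have e2 := hnear p (by omega) q hq.le hq2 _ _ _ _ _ _ (hP0 p (by omega)) (hP0 q (by omega))
          (fun t ht => by
            have h2 := abs_le.1 ((hP0 p (by omega)).slope t ht)
            have h3 := abs_le.1 ((hP0 q (by omega)).slope t ht)
            have h4 : (p : ℝ) + 1 ≤ q := by exact_mod_cast hq
            linarith [h2.1, h2.2, h3.1, h3.2])
        have hp2 : (2 : ℝ) ≤ p := by exact_mod_cast (by omega : 2 ≤ p)
        have hp0 : (0 : ℝ) < p := by linarith
        have hpq' : (p : ℝ) ≤ q := by exact_mod_cast hq.le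
        have hwq : Real.log q / q ≤ 2 * (Real.log p / p) := by
          have hq2' : (q : ℝ) ≤ p * p := by
            have : (q : ℝ) ≤ 2 * p := by exact_mod_cast hq2
            nlinarith
          have hlq : Real.log q ≤ 2 * Real.log p := by
            calc Real.log q ≤ Real.log (p * p) := Real.log_le_log (by linarith) hq2'
              _ = 2 * Real.log p := by rw [Real.log_mul hp0.ne' hp0.ne']; ring
          have hlp := Real.log_natCast_nonneg p
          calc Real.log q / q ≤ (2 * Real.log p) / p := div_le_div₀ (by positivity) hlq hp0 hpq'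
            _ = _ := by ring
        have hwp := hw0 p
        have e3 : K4 * ((Real.log p / p) * (Real.log q / q)) ≤ 2 * K4 * (Real.log p / p) ^ 2 := by
          calc K4 * ((Real.log p / p) * (Real.log q / q)) ≤
                K4 * ((Real.log p / p) * (2 * (Real.log p / p))) := by gcongr
            _ = _ := by ring
        have e4 : 0 ≤ ((2 : ℝ) ^ (q - p))⁻¹ * (Real.log p / p) := by positivity
        have e5 : 0 ≤ (Real.log p / p) ^ 2 := sq_nonneg _
        push_cast
        rw [hK]
        calc _ ≤ _ := e1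
          _ ≤ K3 * (Real.log p / p) ^ 2 + 2 * K4 * (Real.log p / p) ^ 2 := add_le_add e2 e3
          _ ≤ _ := by nlinarith [mul_nonneg hK1.le e5, mul_nonneg hK2.le e5, mul_nonneg hK1.le e4,
              mul_nonneg hK2.le e4, mul_nonneg hK4.le e4, mul_nonneg hK3.le e4])
    refine ⟨κ, C + K5, hκ, by positivity, P', hP3', fun q hq _ => ?_, fun q hq _ T hT => ?_⟩
    · have e1 := ((hone q (by omega)).2 _ _ (hP0 q (by omega)).loc).2.2.2
      have e2 : ∫ t in Set.Ioc b0 b1, (gg q (y q t)) ^ 2 ≤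
          ∫ t in Set.Ioc b0 b1, |gg q (y q t)| := by
        have hmg : Measurable (fun t : ℝ => gg q (y q t)) := (measurable_gg q).comp (hym q)
        refine setIntegral_mono_on ?_ ?_ measurableSet_Ioc fun t _ => ?_
        · refine int_bdd (hmg.pow_const 2) (M := 1) (fun t => ?_) _ _
          rw [abs_pow]
          exact pow_le_one₀ (abs_nonneg _) (abs_gg_le_one _ _)
        · refine int_bdd hmg.abs (M := 1) (fun t => ?_) _ _
          rw [abs_abs]
          exact abs_gg_le_one _ _
        · have h1 := abs_gg_le_one q (y q t)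
          have h2 := abs_nonneg (gg q (y q t))
          rw [← sq_abs]
          nlinarith
      refine (e2.trans e1).trans ?_
      unfold wt
      exact mul_le_mul_of_nonneg_right (by linarith) (hw0 q)
    · have hsame : ∑ p ∈ T, |∫ t in Set.Ioc b0 b1, gg p (y p t) * gg q (y q t)| =
          ∑ p ∈ T, |J p q| := by
        refine Finset.sum_congr rfl fun p hp => ?_
        have := (hT p hp).2.1
        simp only [hJ]
        rw [if_pos (hP'.trans this)]
      have e1 := hrow q hq T hT
      rw [← hsame] at e1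
      refine e1.trans ?_
      unfold wt
      refine mul_le_mul_of_nonneg_right (by linarith) ?_
      have : 0 ≤ ∑ p ∈ T.filter (fun p : ℕ => κ * q / Real.log q < (p : ℝ)), Real.log p / (p : ℝ) :=
        Finset.sum_nonneg fun p _ => hw0 p
      exact mul_nonneg (hw0 q) (by linarith)
  · refine ⟨K5, hK5.le, P0 + P5, fun q hq _ => ?_⟩
    exact ((hone q (by omega)).2 _ _ (hP0 q (by omega)).loc).2.2.1

/-- from windows to the half line -/
lemma ae_win {c0 : ℝ} {P : ℝ → Prop} (hwin : ∀ b0 b1 : ℝ, c0 < b0 → b0 < b1 →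
    ∀ᵐ t ∂(volume.restrict (Set.Ioc b0 b1)), P t) : ∀ᵐ t : ℝ, c0 < t → P t := by
  have h2 : ∀ k : ℕ, ∀ᵐ t : ℝ, t ∈ Set.Ioc (c0 + 1 / ((k : ℝ) + 1)) (c0 + k + 2) → P t := fun k => by
    have hk : (0 : ℝ) ≤ k := Nat.cast_nonneg k
    have h3 : 0 < 1 / ((k : ℝ) + 1) := by positivity
    have h4 : 1 / ((k : ℝ) + 1) ≤ 1 := by rw [div_le_one (by linarith)]; linarith
    exact (ae_restrict_iff' measurableSet_Ioc).1 (hwin _ _ (by linarith) (by linarith))
  filter_upwards [ae_all_iff.2 h2] with t ht htc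
  obtain ⟨k, hk⟩ := exists_nat_gt (max (1 / (t - c0)) (t - c0))
  have hk1 : 1 / (t - c0) < k := (le_max_left _ _).trans_lt hk
  have hk2 : t - c0 < k := (le_max_right _ _).trans_lt hk
  have htc' : 0 < t - c0 := by linarith
  refine ht k ⟨?_, by linarith⟩
  have h3 : 1 / ((k : ℝ) + 1) < t - c0 := by
    rw [div_lt_iff₀ htc'] at hk1
    rw [div_lt_iff₀ (by linarith)]
    linarith
  linarith

/-- **The statements for curve families.** -/
theorem pt_cur {c0 : ℝ} (hc0 : 0 ≤ c0) {h1 : ℝ → ℝ} {y y' y'' : ℕ → ℝ → ℝ}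
    (hym : ∀ p, Measurable (y p))
    (hfam : ∀ a0 a1 : ℝ, c0 < a0 → a0 < a1 → ∃ D : ℝ, 0 ≤ D ∧
      ∀ᶠ p : ℕ in atTop, Cur a0 a1 D h1 p (y p) (y' p) (y'' p)) {s : ℝ → ℕ → ℕ}
    (hs : ∀ᵐ t : ℝ, c0 < t → ∃ P : ℕ, ∀ p ≥ P, p.Prime →
      ff p (y p t) = if (roughPart p (s t p)).Prime then 1 else 0) (S : Set ℕ) :
    ∀ᵐ t : ℝ, c0 < t → Pt (s t) (Real.exp Real.eulerMascheroniConstant / t) S := by
  refine ae_win fun b0 b1 hb0 hb01 => ?_
  have hfin : IsFiniteMeasure (volume.restrict (Set.Ioc b0 b1)) := ⟨by simp⟩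
  have hmem : ∀ᵐ t ∂(volume.restrict (Set.Ioc b0 b1)), t ∈ Set.Ioc b0 b1 :=
    ae_restrict_mem measurableSet_Ioc
  refine (sys_cur hc0 hym hfam b0 b1 hb0 hb01).pt ?_ S
  filter_upwards [ae_restrict_of_ae hs, hmem] with t ht htm
  exact ht (hb0.trans htm.1)

end Pool.Agent.TH888.C
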